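import Pool.Agent.X297.HR.Core

set_option autoImplicit false

/-!
# MP_20dafb_an, Q1: hyponormal roots of spherically quasinormal tuples are spherically quasinormal

Proof.  Put `Θ(X) = ∑ Tᵢ* X Tᵢ`, `Q_k = Θ^k(1)`, `A = Q_n`.  Joint hyponormality gives
`N := Q₂ - Q₁² ≥ 0`, hence for every vector `x` the moments `m_k(x) = ⟨Q_k x, x⟩` are log-convex,
and so `m₂ m_n² ≤ m₁² m_{2n}`.  As all words of length `n` commute with `A`, `Q_{2n} = A²`, and the
inequality reads `⟨N x, x⟩ ⟨A x, x⟩² ≤ ‖Q₁ x‖² (‖x‖² ‖A x‖² - ⟨A x, x⟩²)`: the form of `N` is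
dominated by the variance of `A`, which is of second order in `δ` on the spectral pieces of `A` of
length `δ`, while there are only `1/δ` of them.  Hence `N A = 0`; as `N = 0` on `ker A`,
`Q₂ = Q₁²`, and this equality case of joint hyponormality says that `Q₁` commutes with every `Tᵢ`.
-/

open scoped InnerProductSpace ComplexOrder

namespace Pool.Agent.Results.MP_20dafb_an.HyponormalRoots

variable {H : Type*} [NormedAddCommGroup H] [InnerProductSpace ℂ H] [CompleteSpace H]
variable {ι : Type*} [Fintype ι]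

/-- Every `Tᵢ` commutes with `∑ⱼ Tⱼ* Tⱼ`. -/
def IsSphericallyQuasinormal (T : ι → H →L[ℂ] H) : Prop :=
  ∀ i, T i * (∑ j, star (T j) * T j) = (∑ j, star (T j) * T j) * T i

/-- The operator matrix on `H^ι` whose `(i,j)` entry is `[Tⱼ*, Tᵢ] = Tⱼ* Tᵢ - Tᵢ Tⱼ*` is a positive
operator: `0 ≤ ∑ᵢ ⟨xᵢ, ∑ⱼ [Tⱼ*, Tᵢ] xⱼ⟩` for all `x`. -/
def IsJointlyHyponormal (T : ι → H →L[ℂ] H) : Prop :=
  ∀ x : ι → H, 0 ≤ ∑ i, ∑ j, ⟪x i, (star (T j) * T i - T i * star (T j)) (x j)⟫_ℂ

/-- The power `T^n`: the tuple of all words `T_{w 0} T_{w 1} ⋯ T_{w (n-1)}`, one entry for every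
index sequence `w : Fin n → ι`. -/
noncomputable def tuplePower (T : ι → H →L[ℂ] H) (n : ℕ) : (Fin n → ι) → H →L[ℂ] H :=
  fun w => (List.ofFn fun k => T (w k)).prod

/-- **Theorem** (positive answer to Q1).  If `T` is a commuting, jointly hyponormal `d`-tuple of
operators on a complex Hilbert space and `T^n` is spherically quasinormal for some `n ≥ 1`, then
`T` is spherically quasinormal. -/
theorem result {d : ℕ} (T : Fin d → H →L[ℂ] H) (hcomm : ∀ i j, T i * T j = T j * T i)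
    (hyp : IsJointlyHyponormal T) (n : ℕ) (hn : 1 ≤ n)
    (hq : IsSphericallyQuasinormal (tuplePower T n)) : IsSphericallyQuasinormal T :=
  Pool.Agent.X297.HR.main T hcomm hyp n hn hq

end Pool.Agent.Results.MP_20dafb_an.HyponormalRoots
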